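import Mathlib

set_option autoImplicit false

open Set

namespace Pool.Agent.Lib.Pcb17aeH

/-- A function on `[0,1]`, viewed as a function on the line (constant to the left of `0` and to the
right of `1`). Only its restriction to `[0,1]` is ever used below. -/
noncomputable def ext (f : Icc (0 : ℝ) 1 → ℂ) : ℝ → ℂ := IccExtend (zero_le_one (α := ℝ)) f

/-- `f` has derivatives of all orders on `[0,1]` (one-sided at the end points). -/
def IsSmooth (f : Icc (0 : ℝ) 1 → ℂ) : Prop := ContDiffOn ℝ (⊤ : ℕ∞) (ext f) (Icc 0 1)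

lemma IsSmooth.mul {f g : Icc (0 : ℝ) 1 → ℂ} (hf : IsSmooth f) (hg : IsSmooth g) :
    IsSmooth (f * g) := ContDiffOn.mul hf hg

lemma IsSmooth.add {f g : Icc (0 : ℝ) 1 → ℂ} (hf : IsSmooth f) (hg : IsSmooth g) :
    IsSmooth (f + g) := ContDiffOn.add hf hg

lemma isSmooth_const (c : ℂ) : IsSmooth (algebraMap ℂ (Icc (0 : ℝ) 1 → ℂ) c) := by
  show ContDiffOn ℝ (⊤ : ℕ∞) (ext _) (Icc 0 1)
  exact contDiffOn_const

/-- `C^∞([0,1])` as a subalgebra of the algebra of all functions on `[0,1]`. -/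
def cinf : Subalgebra ℂ (Icc (0 : ℝ) 1 → ℂ) where
  carrier := {f | IsSmooth f}
  mul_mem' := IsSmooth.mul
  add_mem' := IsSmooth.add
  algebraMap_mem' := isSmooth_const

/-- `C^∞([0,1])`: the complex functions on `[0,1]` with derivatives of all orders (one-sided at the
end points). -/
def Cinf : Type := cinf

/-- pointwise operations -/
noncomputable instance : CommRing Cinf := inferInstanceAs (CommRing cinf)

/-- pointwise operations -/
noncomputable instance : Algebra ℂ Cinf := inferInstanceAs (Algebra ℂ cinf)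

/-- The value `f t`. -/
def val (f : Cinf) : Icc (0 : ℝ) 1 → ℂ := f.1

lemma ext_apply (f : Icc (0 : ℝ) 1 → ℂ) (t : Icc (0 : ℝ) 1) : ext f t = f t :=
  IccExtend_val _ f t

lemma smooth (f : Cinf) : ContDiffOn ℝ (⊤ : ℕ∞) (ext (val f)) (Icc 0 1) := f.2

/-- The `j`-th derivative `f^(j)(t)` at `t` in `[0,1]`, one-sided at the end points. -/
noncomputable def dj (j : ℕ) (f : Cinf) (t : Icc (0 : ℝ) 1) : ℂ :=
  iteratedDerivWithin j (ext (val f)) (Icc 0 1) t

/-- The `j`-th derivative as a continuous function on `[0,1]`, depending linearly on `f`. -/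
noncomputable def D (j : ℕ) : Cinf →ₗ[ℂ] C(Icc (0 : ℝ) 1, ℂ) where
  toFun f := ⟨fun t => dj j f t,
    ((smooth f).continuousOn_iteratedDerivWithin (by exact_mod_cast le_top)
      (uniqueDiffOn_Icc zero_lt_one)).comp_continuous continuous_subtype_val fun t => t.2⟩
  map_add' f g := by
    ext t
    have hf := ((smooth f).of_le (show ((j : ℕ) : WithTop ℕ∞) ≤ ((⊤ : ℕ∞) : WithTop ℕ∞) by
      exact_mod_cast le_top)) t t.2
    have hg := ((smooth g).of_le (show ((j : ℕ) : WithTop ℕ∞) ≤ ((⊤ : ℕ∞) : WithTop ℕ∞) by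
      exact_mod_cast le_top)) t t.2
    exact iteratedDerivWithin_add t.2 (uniqueDiffOn_Icc zero_lt_one) hf hg
  map_smul' c f := by
    ext t
    have hf := ((smooth f).of_le (show ((j : ℕ) : WithTop ℕ∞) ≤ ((⊤ : ℕ∞) : WithTop ℕ∞) by
      exact_mod_cast le_top)) t t.2
    exact iteratedDerivWithin_const_smul t.2 (uniqueDiffOn_Icc zero_lt_one) c hf

/-- `max_{0 ≤ j ≤ k} sup_{t ∈ [0,1]} |f^(j)(t)|` -/
noncomputable def pFun (k : ℕ) (f : Cinf) : ℝ :=
  ⨆ j : Fin (k + 1), ⨆ t : Icc (0 : ℝ) 1, ‖dj j f t‖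

lemma pFun_eq (k : ℕ) (f : Cinf) : pFun k f = ⨆ j : Fin (k + 1), ‖D j f‖ := by
  unfold pFun
  congr 1
  funext j
  rw [ContinuousMap.norm_eq_iSup_norm]
  rfl

lemma le_pFun {k j : ℕ} (hj : j < k + 1) (f : Cinf) : ‖D j f‖ ≤ pFun k f := by
  rw [pFun_eq]
  exact le_ciSup (f := fun j : Fin (k + 1) => ‖D j f‖) (Finite.bddAbove_range _) ⟨j, hj⟩

lemma pFun_add (k : ℕ) (f g : Cinf) : pFun k (f + g) ≤ pFun k f + pFun k g := by
  rw [pFun_eq k (f + g)]
  refine ciSup_le fun j => ?_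
  rw [map_add]
  exact (norm_add_le _ _).trans (add_le_add (le_pFun j.2 f) (le_pFun j.2 g))

lemma pFun_smul (k : ℕ) (c : ℂ) (f : Cinf) : pFun k (c • f) = ‖c‖ * pFun k f := by
  rw [pFun_eq, pFun_eq, Real.mul_iSup_of_nonneg (norm_nonneg c)]
  congr 1
  funext j
  rw [map_smul, norm_smul]

/-- The seminorms `p_k(f) = max_{0 ≤ j ≤ k} sup_{t ∈ [0,1]} |f^(j)(t)|`. -/
noncomputable def p (k : ℕ) : Seminorm ℂ Cinf := Seminorm.of (pFun k) (pFun_add k) (pFun_smul k)

lemma p_apply (k : ℕ) (f : Cinf) : p k f = pFun k f := rfl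

/-- The Fréchet topology of `C^∞([0,1])`, given by the seminorms `p_k`. -/
noncomputable instance : TopologicalSpace Cinf :=
  (SeminormFamily.moduleFilterBasis (p := p)).topology

/-- `θ` is a homomorphism of algebras from `C^∞([0,1])` onto `B`; nothing is assumed about
continuity or units. -/
def IsEpimorphism {B : Type*} [NonUnitalNormedRing B] [NormedSpace ℂ B] (θ : Cinf → B) : Prop :=
  (∀ f g, θ (f + g) = θ f + θ g) ∧ (∀ f g, θ (f * g) = θ f * θ g) ∧
    (∀ (c : ℂ) (f : Cinf), θ (c • f) = c • θ f) ∧ Function.Surjective θ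

end Pool.Agent.Lib.Pcb17aeH
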