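import Mathlib
import Pool.Agent.Lib.Pcb17ae.Borel

set_option autoImplicit false

open Set Filter Topology

namespace Pool.Agent.Lib.Pcb17aeH

/-- A sequence of functions, each the derivative of the preceding one, consists of smooth
functions. -/
lemma smooth_of_seq (G : ℕ → ℝ → ℂ) (hG : ∀ k x, HasDerivAt (G k) (G (k + 1) x) x) :
    ContDiff ℝ (⊤ : ℕ∞) (G 0) ∧ ∀ m, iteratedDeriv m (G 0) = G m := by
  have h1 : ∀ m, iteratedDeriv m (G 0) = G m := by
    intro m
    induction m with
    | zero => exact iteratedDeriv_zero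
    | succ m ih =>
      rw [iteratedDeriv_succ, ih]
      funext x
      exact (hG m x).deriv
  refine ⟨?_, h1⟩
  apply contDiff_of_differentiable_iteratedDeriv
  intro m _
  rw [h1 m]
  exact fun x => (hG m x).differentiableAt

lemma hasDerivWithinAt_of_notMem_closure' {f : ℝ → ℂ} {f' : ℂ} {s : Set ℝ} {x : ℝ}
    (h : x ∉ closure s) : HasDerivWithinAt f f' s x :=
  hasDerivWithinAt_iff_hasFDerivWithinAt.2 (HasFDerivWithinAt.of_notMem_closure h)

/-- A function on `[0,1]` with one-sided derivatives of all orders extends to a smooth function on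
the line. -/
lemma exists_ext (f : ℝ → ℂ) (hf : ContDiffOn ℝ (⊤ : ℕ∞) f (Icc 0 1)) :
    ∃ g : ℝ → ℂ, ContDiff ℝ (⊤ : ℕ∞) g ∧ EqOn g f (Icc 0 1) ∧
      ∀ m, ∀ x ∈ Icc (0 : ℝ) 1, iteratedDeriv m g x = iteratedDerivWithin m f (Icc 0 1) x := by
  obtain ⟨l, hl, hl0⟩ := Pool.Agent.Lib.Pcb17ae.borel (fun k => iteratedDerivWithin k f (Icc 0 1) 0) 0
  obtain ⟨h, hh, hh1⟩ := Pool.Agent.Lib.Pcb17ae.borel (fun k => iteratedDerivWithin k f (Icc 0 1) 1) 1
  have hu : UniqueDiffOn ℝ (Icc (0 : ℝ) 1) := uniqueDiffOn_Icc zero_lt_one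
  let G : ℕ → ℝ → ℂ := fun k x => if x < 0 then iteratedDeriv k l x else
    if x ≤ 1 then iteratedDerivWithin k f (Icc 0 1) x else iteratedDeriv k h x
  have EL : ∀ k, EqOn (G k) (iteratedDeriv k l) (Iic 0) := by
    intro k x hx
    rcases (mem_Iic.1 hx).lt_or_eq with h0 | h0
    · simp only [G, if_pos h0]
    · subst h0
      simp only [G, lt_irrefl, if_false, zero_le_one, if_true]
      exact (hl0 k).symm
  have EM : ∀ k, EqOn (G k) (iteratedDerivWithin k f (Icc 0 1)) (Icc 0 1) := by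
    intro k x hx
    simp only [G, if_neg (not_lt.2 hx.1), if_pos hx.2]
  have ER : ∀ k, EqOn (G k) (iteratedDeriv k h) (Ici 1) := by
    intro k x hx
    rcases (mem_Ici.1 hx).lt_or_eq with h0 | h0
    · simp only [G, if_neg (not_lt.2 (zero_le_one.trans h0.le)), if_neg (not_le.2 h0)]
    · subst h0
      simp only [G, if_neg (not_lt.2 (zero_le_one (α := ℝ))), le_refl, if_true]
      exact (hh1 k).symm
  have dS : ∀ (φ : ℝ → ℂ), ContDiff ℝ (⊤ : ℕ∞) φ → ∀ k x,
      HasDerivAt (iteratedDeriv k φ) (iteratedDeriv (k + 1) φ x) x := by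
    intro φ hφ k x
    rw [iteratedDeriv_succ]
    exact ((hφ.differentiable_iteratedDeriv k (by exact_mod_cast ENat.natCast_lt_top k)) x).hasDerivAt
  have dM : ∀ k, ∀ x ∈ Icc (0 : ℝ) 1, HasDerivWithinAt (iteratedDerivWithin k f (Icc 0 1))
      (iteratedDerivWithin (k + 1) f (Icc 0 1) x) (Icc 0 1) x := by
    intro k x hx
    rw [iteratedDerivWithin_succ]
    exact ((hf.differentiableOn_iteratedDerivWithin (m := k)
      (by exact_mod_cast ENat.natCast_lt_top k) hu) x hx).hasDerivWithinAt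
  have hG : ∀ k x, HasDerivAt (G k) (G (k + 1) x) x := by
    intro k x
    have e1 : HasDerivWithinAt (G k) (G (k + 1) x) (Iic 0) x := by
      by_cases hx : x ∈ Iic (0 : ℝ)
      · rw [EL (k + 1) hx]
        exact ((dS l hl k x).hasDerivWithinAt).congr (EL k) (EL k hx)
      · apply hasDerivWithinAt_of_notMem_closure'
        rwa [isClosed_Iic.closure_eq]
    have e2 : HasDerivWithinAt (G k) (G (k + 1) x) (Icc 0 1) x := by
      by_cases hx : x ∈ Icc (0 : ℝ) 1
      · rw [EM (k + 1) hx]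
        exact (dM k x hx).congr (EM k) (EM k hx)
      · apply hasDerivWithinAt_of_notMem_closure'
        rwa [isClosed_Icc.closure_eq]
    have e3 : HasDerivWithinAt (G k) (G (k + 1) x) (Ici 1) x := by
      by_cases hx : x ∈ Ici (1 : ℝ)
      · rw [ER (k + 1) hx]
        exact ((dS h hh k x).hasDerivWithinAt).congr (ER k) (ER k hx)
      · apply hasDerivWithinAt_of_notMem_closure'
        rwa [isClosed_Ici.closure_eq]
    have e4 := (e1.union e2).union e3
    have hun : (Iic (0 : ℝ) ∪ Icc 0 1) ∪ Ici 1 = univ := by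
      ext y
      simp only [mem_union, mem_Iic, mem_Icc, mem_Ici, mem_univ, iff_true]
      rcases le_total y 0 with h1 | h1
      · exact Or.inl (Or.inl h1)
      · rcases le_total y 1 with h2 | h2
        · exact Or.inl (Or.inr ⟨h1, h2⟩)
        · exact Or.inr h2
    rw [hun] at e4
    exact hasDerivWithinAt_univ.1 e4
  obtain ⟨h1, h2⟩ := smooth_of_seq G hG
  refine ⟨G 0, h1, ?_, ?_⟩
  · intro x hx
    rw [EM 0 hx, iteratedDerivWithin_zero]
  · intro m x hx
    rw [h2 m, EM m hx]

end Pool.Agent.Lib.Pcb17aeH
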