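import Mathlib
import Pool.Agent.Lib.Pcb17ae.Main2
import Pool.Agent.Lib.Pcb17aeH.Ext
import Pool.Agent.Lib.Pcb17aeH.Defs

set_option autoImplicit false

open Set Filter Topology

namespace Pool.Agent.Lib.Pcb17aeH

open Pool.Agent.Lib.Pcb17ae

/-- restriction of a smooth function on the line to `[0,1]`. -/
noncomputable def res : Sm →ₐ[ℂ] Cinf where
  toFun f := ⟨fun t => f.1 t, by
    have hf : ContDiff ℝ (⊤ : ℕ∞) f.1 := f.2
    show ContDiffOn ℝ (⊤ : ℕ∞) (ext _) (Icc 0 1)
    refine hf.contDiffOn.congr fun x hx => ?_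
    exact ext_apply _ ⟨x, hx⟩⟩
  map_one' := rfl
  map_mul' _ _ := rfl
  map_zero' := rfl
  map_add' _ _ := rfl
  commutes' _ := rfl

lemma res_apply (f : Sm) (t : Icc (0 : ℝ) 1) : val (res f) t = f.1 t := rfl

lemma exists_lift (f : Cinf) : ∃ g : Sm, res g = f ∧
    ∀ m, ∀ t : Icc (0 : ℝ) 1, iteratedDeriv m g.1 t = D m f t := by
  obtain ⟨g, hg, hgf, hD⟩ := exists_ext (ext (val f)) (smooth f)
  refine ⟨⟨g, hg⟩, ?_, fun m t => hD m t t.2⟩
  apply Subtype.ext
  funext t
  exact (hgf t.2).trans (ext_apply _ t)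

lemma res_surj : Function.Surjective res := fun f => by
  obtain ⟨g, hg, -⟩ := exists_lift f
  exact ⟨g, hg⟩

/-- division with remainder by `∏ (x - t)`. -/
lemma division (s : Multiset ℝ) : ∃ W : Submodule ℂ Sm, FiniteDimensional ℂ W ∧
    Module.finrank ℂ W ≤ Multiset.card s ∧ ∀ f : Sm, ∃ r ∈ W, ∃ g : Sm, f = r + (s.map X).prod * g := by
  induction s using Multiset.induction_on with
  | empty =>
    refine ⟨⊥, inferInstance, by simp, fun f => ⟨0, zero_mem _, f, by simp⟩⟩
  | cons a s ih =>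
    obtain ⟨W, hW, hW1, hW2⟩ := ih
    refine ⟨W ⊔ Submodule.span ℂ {(s.map X).prod}, inferInstance, ?_, fun f => ?_⟩
    · refine (Submodule.finrank_add_le_finrank_add_finrank _ _).trans ?_
      rw [Multiset.card_cons]
      exact add_le_add hW1 ((finrank_span_le_card (R := ℂ) ({(s.map X).prod} : Set Sm)).trans (by simp))
    · obtain ⟨r, hr, g, hg⟩ := hW2 f
      refine ⟨r + (g.1 a) • (s.map X).prod, ?_, hqS g a, ?_⟩
      · exact Submodule.add_mem_sup hr
          (Submodule.smul_mem _ _ (Submodule.mem_span_singleton_self _))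
      · rw [Multiset.map_cons, Multiset.prod_cons]
        conv_lhs => rw [hg, hqS_eq g a]
        rw [mul_add, mul_smul_comm, mul_one]
        ring

variable {B : Type*} [NormedRing B] [NormedAlgebra ℂ B] [CompleteSpace B]

/-- The function `∏_{t ∈ s} (x - t)` as an element of `C^∞([0,1])`. -/
noncomputable def prodX (s : Multiset (Icc (0 : ℝ) 1)) : Cinf := (s.map fun t : Icc (0 : ℝ) 1 => res (X t.1)).prod

omit B in
lemma prodX_apply (s : Multiset (Icc (0 : ℝ) 1)) (x : Icc (0 : ℝ) 1) :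
    val (prodX s) x = (s.map fun t : Icc (0 : ℝ) 1 => ((x : ℝ) : ℂ) - ((t : ℝ) : ℂ)).prod := by
  induction s using Multiset.induction_on with
  | empty => rfl
  | cons a s ih =>
    unfold prodX at ih ⊢
    rw [Multiset.map_cons, Multiset.prod_cons, Multiset.map_cons, Multiset.prod_cons, ← ih]
    show ((x.1 - a.1 : ℝ) : ℂ) * _ = _
    push_cast
    rfl

lemma core (θ : Cinf →ₐ[ℂ] B) (hsurj : Function.Surjective θ) :
    ∃ s : Multiset (Icc (0 : ℝ) 1), θ (prodX s) = 0 ∧ Module.Finite ℂ B ∧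
      Module.finrank ℂ B ≤ Multiset.card s ∧ ∃ C : ℝ, 0 ≤ C ∧ ∀ f : Cinf, ‖θ f‖ ≤
        C * ∑ j ∈ Finset.range (Multiset.card s), ‖D j f‖ := by
  have hs2 : Function.Surjective (θ.comp res) := hsurj.comp res_surj
  have heq : ∀ f g : Sm, EqOn f.1 g.1 (Icc (0:ℝ) 1) → (θ.comp res) f = (θ.comp res) g := by
    intro f g hfg
    have : res f = res g := by
      apply Subtype.ext
      funext t
      exact hfg t.2
    simp only [AlgHom.comp_apply, this]
  obtain ⟨s, hs, hs0⟩ := step2 (θ.comp res) hs2 heq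
  obtain ⟨C, hC0, hC⟩ := step3 (θ.comp res) s hs
  obtain ⟨W, hW, hW1, hW2⟩ := division s
  let s' : Multiset (Icc (0 : ℝ) 1) := s.attach.map fun x => ⟨x.1, hs x.1 x.2⟩
  have hs' : (s'.map fun t : Icc (0 : ℝ) 1 => X t.1) = s.map X := by
    simp only [s', Multiset.map_map, Function.comp_def]
    exact Multiset.attach_map_val' s X
  have hcard : Multiset.card s' = Multiset.card s := by
    simp only [s', Multiset.card_map, Multiset.card_attach]
  have hprod : prodX s' = res ((s.map X).prod) := by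
    rw [← hs', map_multiset_prod, Multiset.map_map]
    unfold prodX
    congr 1
  have htop : W.map (θ.comp res).toLinearMap = ⊤ := by
    rw [eq_top_iff]
    intro b _
    obtain ⟨f, rfl⟩ := hs2 b
    obtain ⟨r, hr, g, hg⟩ := hW2 f
    refine ⟨r, hr, ?_⟩
    conv_rhs => rw [hg]
    rw [map_add, map_mul, hs0, zero_mul, add_zero]
    rfl
  have hfin : Module.Finite ℂ B := by
    have h1 : Module.Finite ℂ (W.map (θ.comp res).toLinearMap) := inferInstance
    rw [htop] at h1
    exact Module.Finite.equiv (Submodule.topEquiv : (⊤ : Submodule ℂ B) ≃ₗ[ℂ] B)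
  refine ⟨s', ?_, hfin, ?_, C, hC0, fun f => ?_⟩
  · rw [hprod]
    exact hs0
  · rw [hcard, ← finrank_top ℂ B, ← htop]
    exact (Submodule.finrank_map_le _ _).trans hW1
  · obtain ⟨g, rfl, hgD⟩ := exists_lift f
    obtain ⟨u, hu, -⟩ := hC g
    rw [map_mul, hs0, zero_mul, sub_zero] at hu
    rw [hcard]
    refine hu.trans ?_
    refine mul_le_mul_of_nonneg_left (Finset.sum_le_sum fun k _ => ?_) hC0
    apply N_le
    intro x hx
    rw [hgD k ⟨x, hx⟩]
    exact (D k (res g)).norm_coe_le_norm ⟨x, hx⟩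

end Pool.Agent.Lib.Pcb17aeH
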